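import Pool.Agent.Y156.J.Main

/-!
# The effective Shafarevich conjecture for Galois covers of curves of genus at most one

The effective Shafarevich conjecture holds for all curves `X` over number fields such that the quotient of
`X` by its geometric automorphism group has genus at most one (Galois covers of the projective line and
of curves of genus one, for instance all bielliptic curves), and also for the curves that are obtained
from these by finitely many geometrically unramified Galois covers (`EtaleTower`). On these classes, the
Belyi degrees are effectively bounded. Known: cyclic covers of prime degree of the projective line
(de Jong and Remond).

The abelian varieties, curves, heights, Belyi degrees and quotients are given by their known properties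
(`IsShaf`).
-/

set_option autoImplicit false

namespace Pool.Agent.Results.MP_f89135_nt.CoversOfGenusAtMostOne

open Pool.Agent.Y156.J

/-- The effective Shafarevich conjecture for Galois covers of curves of genus at most one and for their
unramified Galois covers. -/
theorem result (D : ShafData) (hD : IsShaf D) :
    EffBounded D (IsGaloisCover D) ∧
    ∀ m : ℕ, BelyiBounded D (EtaleTower D m) ∧ EffBounded D (EtaleTower D m) :=
  ⟨effBounded_galois hD,
    fun m => ⟨belyiBounded_tower hD m, effBounded_of_belyi hD (belyiBounded_tower hD m)⟩⟩

end Pool.Agent.Results.MP_f89135_nt.CoversOfGenusAtMostOne
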